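import Pool.Agent.Helper50.KP.Goals

/-!
# Packet KP-DIA (MP_5a63b6_lc)
-/

set_option autoImplicit false

namespace Pool.Agent.Helper46.KP

open Pool.Agent.Helper50.KP

theorem str_append (u v : Word) (n : ℕ) : str (u ++ v) n = (str u n).bind (str v) := by
  induction u generalizing n with
  | nil => rfl
  | cons e u ih =>
    show (if e.2 + e.1.i ≤ n then str (u ++ v) (n - e.1.i + e.1.o) else none) =
      (if e.2 + e.1.i ≤ n then str u (n - e.1.i + e.1.o) else none).bind (str v)
    split_ifs with h
    · exact ih _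
    · rfl

theorem str_cup (k : ℕ) (w : Word) (n : ℕ) (h : k ≤ n) :
    str ((.cup, k) :: w) n = str w (n + 2) := by
  rw [str, if_pos (by simpa [Kind.i] using h)]
  rfl

theorem str_cap (k : ℕ) (w : Word) (n : ℕ) (h : k + 2 ≤ n) :
    str ((.cap, k) :: w) n = str w (n - 2) := by
  rw [str, if_pos (by simpa [Kind.i] using h)]
  rfl

theorem str_X (s : Bool) (k : ℕ) (w : Word) (n : ℕ) (h : k + 2 ≤ n) :
    str ((.X s, k) :: w) n = str w n := by
  rw [str, if_pos (by simpa [Kind.i] using h)]
  have : n - (Kind.X s).i + (Kind.X s).o = n := by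
    show n - 2 + 2 = n
    omega
  rw [this]

theorem str_rep (k : ℕ) : ∀ n : ℕ, 1 ≤ n →
    str (List.replicate k (Kind.cup, 1)) n = some (n + 2 * k) := by
  induction k with
  | zero => intro n _; rfl
  | succ k ih =>
    intro n hn
    rw [List.replicate_succ, str_cup 1 _ n hn, ih _ (by omega)]
    congr 1
    ring

theorem str_base (n : ℕ) : str (base n) 0 = some (4 * n + 2) := by
  unfold base
  rw [str_cup 0 _ 0 le_rfl, str_rep _ _ (by omega)]
  congr 1
  ring

theorem str_low (N p : ℕ) (P : Prog) : ∀ (c c' n : ℕ), fn N c P = some c' → c ≤ N →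
    p + 2 * N + 1 ≤ n → str (low p c P) n = some n := by
  induction P with
  | nil =>
    intro c c' n _ _ _
    cases c <;> rfl
  | cons I P ih =>
    intro c c' n hf hc hn
    cases I with
    | D s =>
      have hf' : (if c < N then fn N (c + 1) P else none) = some c' := by
        cases c <;> simpa [fn] using hf
      have hlow : low p c (.D s :: P) =
          (.X s, p + 2 * c) :: (.X s, p + 2 * c + 1) :: low p (c + 1) P := by
        cases c <;> rfl
      by_cases h : c < N
      · rw [if_pos h] at hf'
        rw [hlow, str_X _ _ _ _ (by omega), str_X _ _ _ _ (by omega)]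
        exact ih _ _ _ hf' (by omega) hn
      · rw [if_neg h] at hf'
        exact absurd hf' (by simp)
    | U s =>
      cases c with
      | zero => simp [fn] at hf
      | succ c =>
        have hf' : fn N c P = some c' := by simpa [fn] using hf
        have hlow : low p (c + 1) (.U s :: P) =
          (.X (!s), p + 2 * c + 1) :: (.X (!s), p + 2 * c) :: low p c P := rfl
        rw [hlow, str_X _ _ _ _ (by omega), str_X _ _ _ _ (by omega)]
        exact ih _ _ _ hf' (by omega) hn

theorem str_nest (k d : ℕ) : str (nest k) (2 * k + d) = some d := by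
  induction k with
  | zero =>
    show some (2 * 0 + d) = some d
    congr 1
    omega
  | succ k ih =>
    show str ((.cap, k) :: nest k) (2 * (k + 1) + d) = some d
    rw [str_cap _ _ _ (by omega)]
    have : 2 * (k + 1) + d - 2 = 2 * k + d := by omega
    rw [this, ih]

theorem str_col (hINV : INV) (n i : ℕ) (E : Prog) (hE : fn (2 * n) 0 E = some 0) :
    str (col i E) (4 * i + 4 * n + 2) = some (4 * (i + 1) + 4 * n + 2) := by
  have hE' : fn (2 * n) 0 (inv E) = some 0 := (hINV.1 (2 * n) 0 0 E (Nat.zero_le _) hE).2.1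
  unfold col
  rw [List.cons_append, str_cup _ _ _ (by omega), str_append,
    str_low (2 * n) (4 * i + 1) E 0 0 _ hE (Nat.zero_le _) (by omega)]
  show str ((.cup, 4 * i + 2) :: low (4 * i + 3) 0 (inv E)) (4 * i + 4 * n + 2 + 2) = _
  rw [str_cup _ _ _ (by omega),
    str_low (2 * n) (4 * i + 3) (inv E) 0 0 _ hE' (Nat.zero_le _) (by omega)]
  congr 1
  ring

theorem str_cols (hINV : INV) (n : ℕ) (Es : List Prog) : ∀ i : ℕ,
    (∀ E ∈ Es, fn (2 * n) 0 E = some 0) →
    str (cols i Es) (4 * i + 4 * n + 2) = some (4 * (i + Es.length) + 4 * n + 2) := by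
  induction Es with
  | nil => intro i _; rfl
  | cons E Es ih =>
    intro i h
    show str (col i E ++ cols (i + 1) Es) _ = _
    rw [str_append, str_col hINV n i E (h E (by simp))]
    show str (cols (i + 1) Es) (4 * (i + 1) + 4 * n + 2) = _
    rw [ih (i + 1) (fun E' hE' => h E' (by simp [hE']))]
    congr 1
    rw [List.length_cons]
    ring

theorem gDIA (hINV : Pool.Agent.Helper50.KP.INV) : Pool.Agent.Helper50.KP.DIA := by
  intro Es hEs
  show str (dia Es) 0 = some 0
  have h1 := str_cols hINV Es.length Es 0 hEs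
  have e1 : 4 * 0 + 4 * Es.length + 2 = 4 * Es.length + 2 := by ring
  have e2 : 4 * (0 + Es.length) + 4 * Es.length + 2 = 2 * (4 * Es.length) + 2 := by ring
  rw [e1, e2] at h1
  unfold dia
  rw [str_append, str_append, str_append, str_base]
  show (((str (cols 0 Es) (4 * Es.length + 2)).bind (str (nest (4 * Es.length)))).bind
    (str [(.cap, 0)])) = some 0
  rw [h1]
  show ((str (nest (4 * Es.length)) (2 * (4 * Es.length) + 2)).bind (str [(.cap, 0)])) = some 0
  rw [str_nest]
  rfl

end Pool.Agent.Helper46.KP
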